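import Pool.Agent.W500.FL.Stm

set_option autoImplicit false

namespace Pool.Agent.W324.FL.J

open Polynomial Pool.Agent.W500.FL

lemma res_eq {K : Type} [Field K] (f a : K[X]) (hf : f.Monic) (n : ℕ) (hn : a.natDegree ≤ n) :
    resultant f a f.natDegree n = resultant f a := by
  obtain ⟨k, rfl⟩ := Nat.exists_eq_add_of_le hn
  rw [resultant_add_right_deg _ _ _ _ _ le_rfl]
  simp [hf.coeff_natDegree]

lemma res_mul_right {K : Type} [Field K] (f a b : K[X]) (hf : f.Monic) :
    resultant f (a * b) = resultant f a * resultant f b := by
  rw [← res_eq f (a * b) hf (a.natDegree + b.natDegree) natDegree_mul_le,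
    resultant_mul_right _ _ _ _ le_rfl]

lemma res_mul_left {K : Type} [Field K] (f g a : K[X]) (hf : f.Monic) (hg : g.Monic) :
    resultant (f * g) a = resultant f a * resultant g a := by
  have := resultant_mul_left f g a a.natDegree le_rfl
  rwa [← hf.natDegree_mul hg] at this

lemma res_congr {K : Type} [Field K] (f a b : K[X]) (hf : f.Monic) (h : f ∣ a - b) :
    resultant f a = resultant f b := by
  obtain ⟨k, hk⟩ := h
  have ha : a = b + f * k := by rw [← hk]; ring
  have h1 : a.natDegree ≤ max (k.natDegree + f.natDegree) (max a.natDegree b.natDegree) :=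
    (le_max_left _ _).trans (le_max_right _ _)
  have h2 : b.natDegree ≤ max (k.natDegree + f.natDegree) (max a.natDegree b.natDegree) :=
    (le_max_right _ _).trans (le_max_right _ _)
  have h3 : k.natDegree + f.natDegree ≤
      max (k.natDegree + f.natDegree) (max a.natDegree b.natDegree) := le_max_left _ _
  rw [← res_eq f a hf _ h1, ← res_eq f b hf _ h2]
  generalize max (k.natDegree + f.natDegree) (max a.natDegree b.natDegree) = n at h3
  rw [ha, resultant_add_mul_right _ _ _ _ _ h3 le_rfl]

theorem main : S_J := by
  intro K _ _ _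
  refine ⟨?_, ?_, ?_, ?_, ?_, ?_, ?_⟩
  · intro f a b hf
    simp only [jac, res_mul_right f a b hf, map_mul]
  · intro f g a hf hg
    simp only [jac, res_mul_left f g a hf hg, map_mul]
  · intro f a b hf h
    simp only [jac, res_congr f a b hf h]
  · intro f c hf
    simp only [jac]
    rw [resultant_C_right, natDegree_C, pow_zero, one_mul, map_pow]
  · intro f g hf hg
    simp only [jac]
    rw [resultant_comm, map_mul, map_pow]
  · intro f a hf
    simp only [jac]
    rw [← isUnit_resultant_iff_isCoprime hf, isUnit_iff_ne_zero, Ne, quadraticChar_eq_zero_iff]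
  · intro f a h
    simp only [jac] at h ⊢
    have h0 : resultant f a ≠ 0 := by
      intro h1
      exact h (by rw [h1]; exact quadraticChar_zero)
    exact quadraticChar_dichotomy h0

end Pool.Agent.W324.FL.J
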